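import Pool.Agent.W601.RP.Stm2

/-!
# RP-FINX: homomorphisms of `H` which depend on finitely many coordinates
-/

set_option autoImplicit false

namespace Pool.Agent.W605.RP

open Pool.Agent.W601.RP

theorem tors (n : ℕ) (hn : 0 < n) (y : TT) (hy : n • y = 0) :
    ∃ m : ℤ, y = m • (((1 / (n : ℝ) : ℝ)) : TT) := by
  obtain ⟨r, rfl⟩ := QuotientAddGroup.mk_surjective y
  have hn' : (n : ℝ) ≠ 0 := by positivity
  change n • ((r : ℝ) : TT) = 0 at hy
  rw [← AddCircle.coe_nsmul, AddCircle.coe_eq_zero_iff] at hy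
  obtain ⟨m, hm⟩ := hy
  refine ⟨m, ?_⟩
  change ((r : ℝ) : TT) = _
  rw [← AddCircle.coe_zsmul]
  congr 1
  rw [zsmul_eq_mul, mul_one, nsmul_eq_mul] at hm
  rw [zsmul_eq_mul, hm]
  field_simp

theorem hom_mul (n : ℕ) (hn : 0 < n) (f : TT →+ TT) :
    ∃ m : ℤ, ∀ y : TT, n • y = 0 → f y = m • y := by
  have hn' : (n : ℝ) ≠ 0 := by positivity
  have hu : n • (((1 / (n : ℝ) : ℝ)) : TT) = 0 := by
    rw [← AddCircle.coe_nsmul, AddCircle.coe_eq_zero_iff]
    refine ⟨1, ?_⟩
    rw [nsmul_eq_mul, one_smul]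
    field_simp
  obtain ⟨m, hm⟩ := tors n hn (f (((1 / (n : ℝ) : ℝ)) : TT)) (by rw [← map_nsmul, hu, map_zero])
  refine ⟨m, fun y hy => ?_⟩
  obtain ⟨a, ha⟩ := tors n hn y hy
  rw [ha, map_zsmul, hm, smul_comm]

theorem finx : S_NULL → S_FINX := by
  intro hnull A0 χ hχ
  classical
  let r : ↥H →+ (↥A0 → TT) := AddMonoidHom.mk' (fun h t => (h : ℕ → TT) t) (fun a b => rfl)
  have hker : r.ker ≤ χ.ker := by
    intro h hh
    apply hχ h
    intro t ht
    exact congrFun (hh : r h = 0) ⟨t, ht⟩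
  obtain ⟨ψ, hψ⟩ := (Module.Baer.of_divisible TT).extension_property_addMonoidHom
    (QuotientAddGroup.kerLift r) (QuotientAddGroup.kerLift_injective r)
    (QuotientAddGroup.lift r.ker χ hker)
  have hψ' : ∀ h : ↥H, χ h = ψ (r h) := by
    intro h
    have h1 := DFunLike.congr_fun hψ (QuotientAddGroup.mk h)
    exact h1.symm
  have hN : ∀ t : ℕ, 0 < N t := by
    intro t
    unfold N
    positivity
  have hm : ∀ t : ↥A0, ∃ m : ℤ, ∀ y : TT, N t • y = 0 →
      ψ.comp (AddMonoidHom.single (fun _ : ↥A0 => TT) t) y = m • y :=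
    fun t => hom_mul (N t) (hN t) _
  choose m hm using hm
  refine ⟨Finsupp.onFinset A0 (fun t => if ht : t ∈ A0 then m ⟨t, ht⟩ else 0) ?_, ?_, ?_⟩
  · intro t ht
    by_contra h1
    exact ht (dif_neg h1)
  · intro t ht
    exact Finsupp.support_onFinset_subset ht
  · intro h
    have hval := hnull.2 h h.2
    rw [hψ' h]
    unfold pr
    rw [Finsupp.onFinset_sum _ (g := fun t a => a • (h : ℕ → TT) t) (fun t => zero_smul _ _)]
    rw [← Finset.sum_attach A0]
    have h1 : r h = ∑ t : ↥A0, Pi.single t (r h t) := (Finset.univ_sum_single (r h)).symm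
    rw [h1, map_sum, Finset.univ_eq_attach]
    apply Finset.sum_congr rfl
    intro t _
    have h2 := hm t (r h t) (hval t)
    have h3 : ψ (Pi.single t (r h t)) = m t • (r h t) := h2
    rw [h3, dif_pos t.2]
    rfl

end Pool.Agent.W605.RP
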