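import Pool.Agent.W712.RP.Stm

/-!
RP-SUM: the upper bound for the expected number of facets.
-/

set_option autoImplicit false

open MeasureTheory Set Filter Topology
open scoped ENNReal

namespace Pool.Agent.W605.RP

open Pool.Agent.W712.RP

lemma unif_le_one {E : Type} [MeasurableSpace E] (μ : Measure E) (L S : Set E) :
    unif μ L S ≤ 1 := by
  unfold unif
  rw [Measure.smul_apply, smul_eq_mul]
  calc (μ L)⁻¹ * μ.restrict L S ≤ (μ L)⁻¹ * μ L := by
        refine mul_le_mul_right ?_ _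
        calc μ.restrict L S ≤ μ.restrict L univ := measure_mono (subset_univ _)
          _ = μ L := by rw [Measure.restrict_apply_univ]
    _ ≤ 1 := ENNReal.inv_mul_le_one (μ L)

lemma real_bound (k n : ℕ) (hn : 2 * (k + 1) ≤ n) (v : ℝ) (h0 : 0 ≤ v) (h1 : v ≤ 1) :
    (n : ℝ) ^ (k + 1) * (v ^ k * (1 - v / 2) ^ (n - (k + 1))) ≤
      (8 ^ k * k.factorial * n) * Real.exp (-(n : ℝ) * v / 8) := by
  have hn0 : (0 : ℝ) ≤ n := Nat.cast_nonneg n
  have hs0 : 0 ≤ (n : ℝ) * v := mul_nonneg hn0 h0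
  have e1 : (1 - v / 2) ^ (n - (k + 1)) ≤ Real.exp (-(n : ℝ) * v / 4) := by
    have h2 : 1 - v / 2 ≤ Real.exp (-(v / 2)) := Real.one_sub_le_exp_neg _
    calc (1 - v / 2) ^ (n - (k + 1)) ≤ Real.exp (-(v / 2)) ^ (n - (k + 1)) :=
          pow_le_pow_left₀ (by linarith) h2 _
      _ = Real.exp (((n - (k + 1) : ℕ) : ℝ) * (-(v / 2))) := (Real.exp_nat_mul _ _).symm
      _ ≤ Real.exp (-(n : ℝ) * v / 4) := by
          rw [Real.exp_le_exp]
          have h3 : (n : ℝ) / 2 ≤ ((n - (k + 1) : ℕ) : ℝ) := by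
            rw [Nat.cast_sub (by omega)]
            have h4 : ((2 * (k + 1) : ℕ) : ℝ) ≤ (n : ℝ) := Nat.cast_le.2 hn
            push_cast at h4 ⊢
            linarith
          nlinarith
  have e2 : ((n : ℝ) * v) ^ k * Real.exp (-(n : ℝ) * v / 8) ≤ 8 ^ k * k.factorial := by
    have h2 := Real.pow_div_factorial_le_exp ((n : ℝ) * v / 8) (by positivity) k
    rw [div_pow, div_div, div_le_iff₀ (by positivity)] at h2
    have h3 : Real.exp (-(n : ℝ) * v / 8) * Real.exp ((n : ℝ) * v / 8) = 1 := by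
      rw [← Real.exp_add]
      have : -(n : ℝ) * v / 8 + (n : ℝ) * v / 8 = 0 := by ring
      rw [this, Real.exp_zero]
    calc ((n : ℝ) * v) ^ k * Real.exp (-(n : ℝ) * v / 8)
        ≤ (Real.exp ((n : ℝ) * v / 8) * (8 ^ k * k.factorial)) * Real.exp (-(n : ℝ) * v / 8) :=
          mul_le_mul_of_nonneg_right h2 (Real.exp_pos _).le
      _ = (Real.exp (-(n : ℝ) * v / 8) * Real.exp ((n : ℝ) * v / 8)) * (8 ^ k * k.factorial) := by
          ring
      _ = 8 ^ k * k.factorial := by rw [h3, one_mul]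
  have e3 : Real.exp (-(n : ℝ) * v / 4) =
      Real.exp (-(n : ℝ) * v / 8) * Real.exp (-(n : ℝ) * v / 8) := by
    rw [← Real.exp_add]
    congr 1
    ring
  calc (n : ℝ) ^ (k + 1) * (v ^ k * (1 - v / 2) ^ (n - (k + 1)))
      = (n * ((n : ℝ) * v) ^ k) * (1 - v / 2) ^ (n - (k + 1)) := by
        rw [mul_pow]
        ring
    _ ≤ (n * ((n : ℝ) * v) ^ k) * Real.exp (-(n : ℝ) * v / 4) :=
        mul_le_mul_of_nonneg_left e1 (mul_nonneg hn0 (pow_nonneg hs0 _))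
    _ = (n * Real.exp (-(n : ℝ) * v / 8)) *
        (((n : ℝ) * v) ^ k * Real.exp (-(n : ℝ) * v / 8)) := by rw [e3]; ring
    _ ≤ (n * Real.exp (-(n : ℝ) * v / 8)) * (8 ^ k * k.factorial) :=
        mul_le_mul_of_nonneg_left e2 (mul_nonneg hn0 (Real.exp_pos _).le)
    _ = (8 ^ k * k.factorial * n) * Real.exp (-(n : ℝ) * v / 8) := by ring

lemma enn_bound (k n : ℕ) (hn : 2 * (k + 1) ≤ n) (p : ℝ≥0∞) (hp : p ≤ 1) :
    (n : ℝ≥0∞) ^ (k + 1) * (p ^ k * (1 - p / 2) ^ (n - (k + 1))) ≤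
      ENNReal.ofReal (8 ^ k * k.factorial * n) *
        ENNReal.ofReal (Real.exp (-(n : ℝ) * p.toReal / 8)) := by
  have hpt : p ≠ ⊤ := ne_top_of_le_ne_top ENNReal.one_ne_top hp
  have h0 : 0 ≤ p.toReal := ENNReal.toReal_nonneg
  have h1 : p.toReal ≤ 1 := by
    have := ENNReal.toReal_mono ENNReal.one_ne_top hp
    rwa [ENNReal.toReal_one] at this
  have e1 : p = ENNReal.ofReal p.toReal := (ENNReal.ofReal_toReal hpt).symm
  have e2 : (1 : ℝ≥0∞) - p / 2 = ENNReal.ofReal (1 - p.toReal / 2) := by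
    rw [ENNReal.ofReal_sub _ (by linarith), ENNReal.ofReal_one, ENNReal.ofReal_div_of_pos two_pos,
      ← e1]
    congr 2
    simp
  have e3 : (n : ℝ≥0∞) = ENNReal.ofReal (n : ℝ) := (ENNReal.ofReal_natCast n).symm
  have e4 : (n : ℝ≥0∞) ^ (k + 1) * (p ^ k * (1 - p / 2) ^ (n - (k + 1))) =
      ENNReal.ofReal ((n : ℝ) ^ (k + 1) * (p.toReal ^ k *
        (1 - p.toReal / 2) ^ (n - (k + 1)))) := by
    rw [ENNReal.ofReal_mul (by positivity), ENNReal.ofReal_mul (by positivity),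
      ENNReal.ofReal_pow (by positivity), ENNReal.ofReal_pow h0, ENNReal.ofReal_pow (by linarith),
      ← e1, ← e2, ← e3]
  rw [e4, ← ENNReal.ofReal_mul (by positivity)]
  exact ENNReal.ofReal_le_ofReal (real_bound k n hn _ h0 h1)

/-- RP-SUM -/
theorem sum : S_UP → S_MAC → S_SUM := by
  intro hUP hMAC k
  refine ⟨2 * (2 * (2 * (k + 1)) ^ (k + 1) * (2 * k + 3) ^ ((k + 1) * (k + 1))) *
    (8 ^ k * k.factorial), ?_⟩
  intro E _ _ _ _ _ μ _ L hL hfin n hn
  let b : Module.Basis (Fin (k + 1)) ℝ E := Module.finBasisOfFinrankEq ℝ E hfin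
  set A : ℝ := 2 * (2 * (k + 1)) ^ (k + 1) * (2 * k + 3) ^ ((k + 1) * (k + 1)) with hA
  have hA0 : 0 ≤ A := by rw [hA]; positivity
  have h1 : ∀ I ∈ Finset.powersetCard (k + 1) (Finset.univ : Finset (Fin n)),
      faceP μ L n I ≤ 2 * (ENNReal.ofReal A *
        ∫⁻ z, (macP μ L z) ^ k * (1 - macP μ L z / 2) ^ (n - (k + 1)) ∂(unif μ L)) := by
    intro I hI
    refine (hUP E μ L hL k b n I (Finset.mem_powersetCard.1 hI).2 (by omega)).trans ?_
    exact mul_le_mul_right (hMAC E μ L hL k b (n - (k + 1))) _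
  have h2 : (n.choose (k + 1) : ℝ≥0∞) ≤ (n : ℝ≥0∞) ^ (k + 1) := by
    have := Nat.choose_le_pow n (k + 1)
    calc (n.choose (k + 1) : ℝ≥0∞) ≤ ((n ^ (k + 1) : ℕ) : ℝ≥0∞) := Nat.cast_le.2 this
      _ = (n : ℝ≥0∞) ^ (k + 1) := by push_cast; rfl
  have hnt : (n : ℝ≥0∞) ^ (k + 1) ≠ ⊤ := ENNReal.pow_ne_top (ENNReal.natCast_ne_top n)
  calc ∑ I ∈ Finset.powersetCard (k + 1) (Finset.univ : Finset (Fin n)), faceP μ L n I
      ≤ (n.choose (k + 1) : ℝ≥0∞) * (2 * (ENNReal.ofReal A *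
        ∫⁻ z, (macP μ L z) ^ k * (1 - macP μ L z / 2) ^ (n - (k + 1)) ∂(unif μ L))) := by
        refine (Finset.sum_le_card_nsmul _ _ _ h1).trans ?_
        rw [Finset.card_powersetCard, Finset.card_univ, Fintype.card_fin, nsmul_eq_mul]
    _ ≤ (n : ℝ≥0∞) ^ (k + 1) * (2 * (ENNReal.ofReal A *
        ∫⁻ z, (macP μ L z) ^ k * (1 - macP μ L z / 2) ^ (n - (k + 1)) ∂(unif μ L))) :=
        mul_le_mul_left h2 _
    _ = (2 * ENNReal.ofReal A) * ∫⁻ z, (n : ℝ≥0∞) ^ (k + 1) *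
        ((macP μ L z) ^ k * (1 - macP μ L z / 2) ^ (n - (k + 1))) ∂(unif μ L) := by
        rw [lintegral_const_mul' _ _ hnt]
        ring
    _ ≤ (2 * ENNReal.ofReal A) * ∫⁻ z, ENNReal.ofReal (8 ^ k * k.factorial * n) *
        ENNReal.ofReal (Real.exp (-(n : ℝ) * (macP μ L z).toReal / 8)) ∂(unif μ L) := by
        refine mul_le_mul_right (lintegral_mono fun z => ?_) _
        exact enn_bound k n hn _ (unif_le_one μ L _)
    _ = ENNReal.ofReal (2 * A * (8 ^ k * k.factorial) * n) *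
        ∫⁻ z, ENNReal.ofReal (Real.exp (-(n : ℝ) * (macP μ L z).toReal / 8)) ∂(unif μ L) := by
        rw [lintegral_const_mul' _ _ ENNReal.ofReal_ne_top, ← mul_assoc]
        congr 1
        have e1 : (2 : ℝ≥0∞) = ENNReal.ofReal 2 := by simp
        rw [e1, ← ENNReal.ofReal_mul (by norm_num), ← ENNReal.ofReal_mul (by positivity)]
        congr 1
        ring

end Pool.Agent.W605.RP
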